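import Pool.Agent.Run7.h519.FL.Stm

/-!
# Piece G: almost all angles are generic
-/

set_option autoImplicit false

noncomputable section

open MeasureTheory Filter Topology Set
open scoped BigOperators Matrix ENNReal

namespace Run7.h185.FL

open Run7.h519.FL

lemma YY_measurable : Measurable YY := by
  have h1 : Measurable (fun p : ℝ × ℝ => (Ioc (0 : ℝ) p.1).indicator (fun t => 1 / Real.cos t) p.2) := by
    have : (fun p : ℝ × ℝ => (Ioc (0 : ℝ) p.1).indicator (fun t => 1 / Real.cos t) p.2) =
        ({p : ℝ × ℝ | 0 < p.2 ∧ p.2 ≤ p.1}).indicator (fun p => 1 / Real.cos p.2) := by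
      funext p
      simp only [Set.indicator, mem_Ioc, mem_ofPred_eq]
    rw [this]
    apply Measurable.indicator
    · exact measurable_const.div (Real.measurable_cos.comp measurable_snd)
    · exact (measurableSet_lt measurable_const measurable_snd).inter
        (measurableSet_le measurable_snd measurable_fst)
  have h2 : Measurable (fun p : ℝ × ℝ => (Ioc p.1 (0 : ℝ)).indicator (fun t => 1 / Real.cos t) p.2) := by
    have : (fun p : ℝ × ℝ => (Ioc p.1 (0 : ℝ)).indicator (fun t => 1 / Real.cos t) p.2) =
        ({p : ℝ × ℝ | p.1 < p.2 ∧ p.2 ≤ 0}).indicator (fun p => 1 / Real.cos p.2) := by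
      funext p
      simp only [Set.indicator, mem_Ioc, mem_ofPred_eq]
    rw [this]
    apply Measurable.indicator
    · exact measurable_const.div (Real.measurable_cos.comp measurable_snd)
    · exact (measurableSet_lt measurable_fst measurable_snd).inter
        (measurableSet_le measurable_snd measurable_const)
  have h3 := (h1.stronglyMeasurable.integral_prod_right' (ν := (volume : Measure ℝ)))
  have h4 := (h2.stronglyMeasurable.integral_prod_right' (ν := (volume : Measure ℝ)))
  have : YY = fun θ => (∫ t, (Ioc (0 : ℝ) θ).indicator (fun t => 1 / Real.cos t) t) -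
      ∫ t, (Ioc θ (0 : ℝ)).indicator (fun t => 1 / Real.cos t) t := by
    funext θ
    rw [YY, intervalIntegral, integral_indicator measurableSet_Ioc,
      integral_indicator measurableSet_Ioc]
  rw [this]
  exact (h3.sub h4).measurable

lemma fold_measurable : Measurable fold := by
  unfold fold
  refine Measurable.ite (measurableSet_lt measurable_const measurable_id)
    (measurable_id.sub_const _) ?_
  exact Measurable.ite (measurableSet_lt measurable_id measurable_const)
    (measurable_id.add_const _) measurable_id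

lemma YY_lt {x y : ℝ} (hx : -(Real.pi / 2) < x) (hxy : x < y) (hy : y < Real.pi / 2) :
    YY x < YY y := by
  have hcont : ∀ a b : ℝ, -(Real.pi / 2) < a → a < Real.pi / 2 → -(Real.pi / 2) < b →
      b < Real.pi / 2 → IntervalIntegrable (fun t => 1 / Real.cos t) volume a b := by
    intro a b ha ha' hb hb'
    apply ContinuousOn.intervalIntegrable
    apply ContinuousOn.div continuousOn_const Real.continuous_cos.continuousOn
    intro t ht
    rw [Set.mem_uIcc] at ht
    apply (Real.cos_pos_of_mem_Ioo ⟨_, _⟩).ne'
    · rcases ht with h | h <;> linarith [h.1, h.2]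
    · rcases ht with h | h <;> linarith [h.1, h.2]
  have hpi := Real.pi_pos
  have h0 : YY y - YY x = ∫ t in x..y, 1 / Real.cos t := by
    unfold YY
    rw [intervalIntegral.integral_interval_sub_left]
    · exact hcont 0 y (by linarith) (by linarith) (by linarith) hy
    · exact hcont 0 x (by linarith) (by linarith) hx (by linarith)
  have h1 : 0 < ∫ t in x..y, 1 / Real.cos t := by
    apply intervalIntegral.intervalIntegral_pos_of_pos_on
    · exact hcont x y hx (by linarith) (by linarith) hy
    · intro t ht
      exact one_div_pos.2 (Real.cos_pos_of_mem_Ioo ⟨by linarith [ht.1], by linarith [ht.2]⟩)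
    · exact hxy
  linarith

lemma YY_inj {x y : ℝ} (hx : -(Real.pi / 2) < x) (hx' : x < Real.pi / 2)
    (hy : -(Real.pi / 2) < y) (hy' : y < Real.pi / 2) (h : YY x = YY y) : x = y := by
  rcases lt_trichotomy x y with h1 | h1 | h1
  · exact absurd h (YY_lt hx h1 hy').ne
  · exact h1
  · exact absurd h (YY_lt hy h1 hx').ne'

/-- the level sets are countable -/
lemma level_countable (κ : ℝ) :
    {x : ℝ | x ∈ Ioo (-Real.pi) Real.pi ∧ YY (fold x) = κ}.Countable := by
  have hpi := Real.pi_pos
  have hsub : {x : ℝ | x ∈ Ioo (-Real.pi) Real.pi ∧ YY (fold x) = κ} ⊆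
      ({Real.pi / 2, -(Real.pi / 2)} : Set ℝ) ∪
      ({x : ℝ | x ∈ Ioo (-Real.pi) (-(Real.pi / 2)) ∧ YY (x + Real.pi) = κ} ∪
      ({x : ℝ | x ∈ Ioo (-(Real.pi / 2)) (Real.pi / 2) ∧ YY x = κ} ∪
      {x : ℝ | x ∈ Ioo (Real.pi / 2) Real.pi ∧ YY (x - Real.pi) = κ})) := by
    rintro x ⟨hx, hκ⟩
    simp only [mem_union, mem_insert_iff, mem_singleton_iff, mem_ofPred_eq, mem_Ioo]
    unfold fold at hκ
    rcases lt_trichotomy x (Real.pi / 2) with h | h | h
    · rcases lt_trichotomy x (-(Real.pi / 2)) with h' | h' | h'
      · right; left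
        rw [if_neg (by linarith), if_pos h'] at hκ
        exact ⟨⟨hx.1, h'⟩, hκ⟩
      · left; right; exact h'
      · right; right; left
        rw [if_neg (by linarith), if_neg (by linarith)] at hκ
        exact ⟨⟨h', h⟩, hκ⟩
    · left; left; exact h
    · right; right; right
      rw [if_pos h] at hκ
      exact ⟨⟨h, hx.2⟩, hκ⟩
  apply Set.Countable.mono hsub
  refine Set.Countable.union ?_ (Set.Countable.union ?_ (Set.Countable.union ?_ ?_))
  · exact (Set.toFinite _).countable
  · apply Set.Subsingleton.countable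
    rintro x ⟨hx, hx'⟩ y ⟨hy, hy'⟩
    have := YY_inj (x := x + Real.pi) (y := y + Real.pi) (by linarith [hx.1]) (by linarith [hx.2])
      (by linarith [hy.1]) (by linarith [hy.2]) (hx'.trans hy'.symm)
    linarith
  · apply Set.Subsingleton.countable
    rintro x ⟨hx, hx'⟩ y ⟨hy, hy'⟩
    exact YY_inj hx.1 hx.2 hy.1 hy.2 (hx'.trans hy'.symm)
  · apply Set.Subsingleton.countable
    rintro x ⟨hx, hx'⟩ y ⟨hy, hy'⟩
    have := YY_inj (x := x - Real.pi) (y := y - Real.pi) (by linarith [hx.1]) (by linarith [hx.2])
      (by linarith [hy.1]) (by linarith [hy.2]) (hx'.trans hy'.symm)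
    linarith

/-- the main statement in terms of the differences -/
lemma null_set (n : ℕ) (a : Fin n → ℝ) (i0 : Fin n) (ha : a i0 ≠ 0) :
    volume ({θ : Fin n → ℝ | ∑ i, a i * YY (fold (θ i)) = 0} ∩ cube n) = 0 := by
  obtain _ | n := n
  · exact i0.elim0
  have hg : Measurable fun x => YY (fold x) := YY_measurable.comp fold_measurable
  set S : Set (Fin (n + 1) → ℝ) := {θ | ∑ i, a i * YY (fold (θ i)) = 0} ∩ cube (n + 1) with hS
  have hSm : MeasurableSet S := by
    apply MeasurableSet.inter
    · apply measurableSet_eq_fun _ measurable_const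
      exact Finset.measurable_sum _ fun i _ =>
        measurable_const.mul (hg.comp (measurable_pi_apply i))
    · exact MeasurableSet.univ_pi fun _ => measurableSet_Ioo
  let e := MeasurableEquiv.piFinSuccAbove (fun _ : Fin (n + 1) => ℝ) i0
  have he := (volume_preserving_piFinSuccAbove (fun _ : Fin (n + 1) => ℝ) i0).symm
  rw [← he.measure_preimage hSm.nullMeasurableSet]
  have hT : MeasurableSet ((MeasurableEquiv.piFinSuccAbove (fun _ : Fin (n + 1) => ℝ) i0).symm ⁻¹' S) :=
    (MeasurableEquiv.measurable _) hSm
  have : (volume : Measure (ℝ × (Fin n → ℝ))) = (volume : Measure ℝ).prod volume := rfl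
  rw [this, Measure.prod_apply_symm hT]
  refine (lintegral_congr fun y => ?_).trans lintegral_zero
  obtain h := level_countable (-(∑ i, a (i0.succAbove i) * YY (fold (y i))) / a i0)
  refine measure_mono_null ?_ (h.measure_zero volume)
  intro x hx
  simp only [mem_preimage] at hx
  obtain ⟨h1, h2⟩ := hx
  have hsymm : (MeasurableEquiv.piFinSuccAbove (fun _ : Fin (n + 1) => ℝ) i0).symm (x, y) =
      i0.insertNth x y := rfl
  rw [hsymm] at h1 h2
  refine ⟨?_, ?_⟩
  · have := h2 i0 (mem_univ _)
    simpa using this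
  · have h3 : ∑ i, a i * YY (fold ((i0.insertNth x y : Fin (n + 1) → ℝ) i)) = 0 := h1
    rw [Fin.sum_univ_succAbove _ i0] at h3
    simp only [Fin.insertNth_apply_same, Fin.insertNth_apply_succAbove] at h3
    rw [eq_div_iff ha]
    linarith

theorem G : S_G := by
  intro n c j hc
  obtain ⟨i0, hi0⟩ := hc
  have h := null_set n (fun i => c i - if i = j then 1 else 0) i0 (sub_ne_zero.2 hi0)
  have hm : MeasurableSet (cube n) := MeasurableSet.univ_pi fun _ => measurableSet_Ioo
  rw [ae_restrict_iff' hm, ae_iff]
  refine measure_mono_null ?_ h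
  intro θ hθ
  simp only [mem_ofPred_eq, Classical.not_imp, not_not, ne_eq] at hθ
  refine ⟨?_, hθ.1⟩
  simp only [mem_ofPred_eq, sub_mul, Finset.sum_sub_distrib]
  rw [hθ.2]
  simp

end Run7.h185.FL
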